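import Pool.Agent.Helper59.SL.GoalsG

/-!
# Project SL (MP_fc6b1e_nt), Galois part: an automorphism separating two quadratic fields
-/

set_option autoImplicit false

namespace Pool.Agent.Helper60.SLG.AUTS

open Pool.Agent.Helper59.SL Module

universe u v w x

theorem thm : S_AUTS.{u, v, w, x} := by
  intro F K K' Ω _ _ _ _ _ _ _ _ _ _ _ _ σ σ' hK hK' hF hE
  by_contra hcon
  push Not at hcon
  let _ : Algebra K Ω := σ.toAlgebra
  have _ : IsScalarTower ℚ K Ω := IsScalarTower.of_algebraMap_eq (fun q => by
    show algebraMap ℚ Ω q = σ (algebraMap ℚ K q)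
    simp)
  have _ : Algebra.IsAlgebraic K Ω := Algebra.IsAlgebraic.tower_top (K := ℚ) K
  have _ : IsAlgClosure K Ω := ⟨inferInstance, inferInstance⟩
  have _ : IsGalois K Ω := inferInstance
  have h1 : ∀ x : K', ∃ y : K, σ y = σ' x := by
    intro x
    have h2 : σ' x ∈ (⊥ : IntermediateField K Ω) := by
      rw [InfiniteGalois.mem_bot_iff_fixed]
      intro f
      exact hcon (f : Ω ≃+* Ω) (fun y => f.commutes y) x
    obtain ⟨y, hy⟩ := IntermediateField.mem_bot.1 h2
    exact ⟨y, hy⟩
  choose g hg using h1
  have hinj : Function.Injective σ := σ.injective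
  let G : K' →ₐ[F] K :=
    { toFun := g
      map_one' := hinj (by rw [hg, map_one, map_one])
      map_mul' := fun x y => hinj (by rw [hg, map_mul, map_mul, hg, hg])
      map_zero' := hinj (by rw [hg, map_zero, map_zero])
      map_add' := fun x y => hinj (by rw [hg, map_add, map_add, hg, hg])
      commutes' := fun a => hinj (by
        show σ (g (algebraMap F K' a)) = σ (algebraMap F K a)
        rw [hg]
        exact (RingHom.congr_fun hF a).symm) }
  have _ : FiniteDimensional F K := FiniteDimensional.of_finrank_pos (by rw [hK]; norm_num)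
  have _ : FiniteDimensional F K' := FiniteDimensional.of_finrank_pos (by rw [hK']; norm_num)
  have hG : Function.Injective G := G.toRingHom.injective
  have hG' : Function.Surjective G :=
    (LinearMap.injective_iff_surjective_of_finrank_eq_finrank (f := G.toLinearMap)
      (by rw [hK, hK'])).1 hG
  exact hE.false (AlgEquiv.ofBijective G ⟨hG, hG'⟩)

end Pool.Agent.Helper60.SLG.AUTS
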